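import Pool.Agent.H311.BP.Div3
import Pool.Agent.H311.BP.Tree
import Pool.Agent.H311.BP.Approx

/-!
# Almost everywhere divergence for sets which are almost balls

Let `n ≥ 2`. There are increasing families of measurable sets `Ω_R`, `R > 0`, squeezed between the
balls of radii `R - ε(R)` and `R + ε(R)` with `ε(R) → 0` as `R → ∞` (and `ε ≤ ε₀` for any given
`ε₀ > 0`), of the form `Ω_R = {ξ : |ξ| + q(ξ) ≤ R}` with a `1`-Lipschitz function `q`, and a square
integrable function whose partial integrals over `Ω_R` are unbounded as `R → ∞` at almost every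
point: neither almost everywhere convergence nor a maximal estimate can hold for them, although the
sets `Ω_R` are asymptotic to the balls. The Lipschitz constant `1` is the threshold: see the hand-in
`PerturbedBalls` for the constants `< 1`.

The proof plants, on the sphere of radius `k_m`, rearranged trigonometric polynomials with large
partial sums outside a set of small measure (Kolmogorov, Menshov).
-/

set_option autoImplicit false

open MeasureTheory Metric Filter Topology
open scoped ENNReal NNReal RealInnerProductSpace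

namespace Pool.Agent.Results.MP_c4dc6d_an.ThinShellDivergence

/-- Euclidean space -/
abbrev E (n : ℕ) := EuclideanSpace ℝ (Fin n)

/-- the partial integral `∫_A e^{2πi x·ξ} G(ξ) dξ` -/
noncomputable def S {n : ℕ} (A : Set (E n)) (G : E n → ℂ) (x : E n) : ℂ :=
  ∫ ξ in A, Complex.exp (2 * Real.pi * Complex.I * ((⟪x, ξ⟫ : ℝ) : ℂ)) * G ξ

/-- the perturbed ball -/
def pball {n : ℕ} (q : E n → ℝ) (R : ℝ) : Set (E n) := {ξ | ‖ξ‖ + q ξ ≤ R}

theorem result {n : ℕ} (hn : 2 ≤ n) (ε : ℝ) (hε : 0 < ε) :
    ∃ q : E n → ℝ, LipschitzWith 1 q ∧ (∀ ξ, |q ξ| ≤ ε) ∧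
      Tendsto q (cocompact (E n)) (𝓝 0) ∧
      ∃ G : E n → ℂ, MemLp G 2 volume ∧
        ∀ᵐ x : E n, ∀ B : ℝ, ∃ R : ℝ, B ≤ R ∧ B ≤ ‖S (pball q R) G x‖ := by
  have hr := Pool.Agent.H311.BP.rearr
    (Pool.Agent.H311.BP.tree Pool.Agent.H311.BP.approx)
  obtain ⟨q, h1, h2, h3, G, h4, h5⟩ := Pool.Agent.H311.BP.diverge (n := n) hr hn
    (ε := min ε 1) (lt_min hε one_pos) (min_le_right _ _)
  exact ⟨q, h1, fun ξ => (h2 ξ).trans (min_le_left _ _), h3, G, h4, h5⟩

end Pool.Agent.Results.MP_c4dc6d_an.ThinShellDivergence
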